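import Mathlib
import Pool.Agent.H65R4.KU

set_option autoImplicit false

open Set Filter Topology
open Pool.Agent.H65R4 (ku_meagre)

namespace Pool.Agent.TH724.GJ

/-! ## Category arguments on `(2^G)^H` -/

/-- Kuratowski-Ulam for `∀ᶠ` in the residual filter -/
theorem ku {X Y : Type} [TopologicalSpace X] [TopologicalSpace Y]
    [SecondCountableTopology Y] {P : X → Y → Prop}
    (h : ∀ᶠ p in residual (X × Y), P p.1 p.2) : ∀ᶠ x in residual X, ∀ᶠ y in residual Y, P x y := by
  have h1 : IsMeagre {p : X × Y | ¬ P p.1 p.2} := by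
    rw [IsMeagre]
    filter_upwards [h] with p hp
    simpa using hp
  filter_upwards [ku_meagre h1] with x hx
  rw [IsMeagre] at hx
  filter_upwards [hx] with y hy
  simpa using hy

theorem ku' {X Y : Type} [TopologicalSpace X] [TopologicalSpace Y]
    [SecondCountableTopology X] {P : X → Y → Prop}
    (h : ∀ᶠ p in residual (X × Y), P p.1 p.2) : ∀ᶠ y in residual Y, ∀ᶠ x in residual X, P x y := by
  apply ku (P := fun y x => P x y)
  exact (tendsto_residual_of_isOpenMap continuous_swap (Homeomorph.prodComm Y X).isOpenMap).eventually h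

theorem exists_of_residual {X : Type} [TopologicalSpace X] [BaireSpace X] {P : X → Prop}
    (h : ∀ᶠ z in residual X, P z) {U : Set X} (hU : IsOpen U) (hne : U.Nonempty) :
    ∃ z ∈ U, P z := by
  have hd : Dense {z | P z} := dense_of_mem_residual h
  obtain ⟨z, hz1, hz2⟩ := hd.inter_open_nonempty U hU hne
  exact ⟨z, hz1, hz2⟩

section

variable {G H : Type} [Group G] [DecidableEq H]

/-- the coordinatewise shift -/
def act (γ : H → G) (α : H → G → Bool) : H → G → Bool := fun h x => α h ((γ h)⁻¹ * x)

/-- `a` on `F`, and `b` off `F` -/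
def mix {Y : Type} (F : Finset H) (a b : H → Y) : H → Y := fun h => if h ∈ F then a h else b h

theorem act_mix (F : Finset H) (γ δ : H → G) (a b : H → G → Bool) :
    act (mix F γ δ) (mix F a b) = mix F (act γ a) (act δ b) := by
  funext h x
  unfold act mix
  by_cases hh : h ∈ F <;> simp [hh]

variable [TopologicalSpace G] [DiscreteTopology G]

theorem continuous_act : Continuous (fun p : (H → G) × (H → G → Bool) => act p.1 p.2) := by
  refine continuous_pi fun h => continuous_pi fun x => ?_
  unfold act
  -- evaluate a continuous function at a discrete parameter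
  have h1 : Continuous (fun p : (H → G) × (H → G → Bool) => ((p.1 h)⁻¹ * x, p.2 h)) := by
    refine Continuous.prodMk ?_ ?_
    · exact (continuous_of_discreteTopology (f := fun g : G => g⁻¹ * x)).comp
        ((continuous_apply h).comp continuous_fst)
    · exact (continuous_apply h).comp continuous_snd
  have h2 : Continuous (fun q : G × (G → Bool) => q.2 q.1) := by
    rw [continuous_iff_continuousAt]
    rintro ⟨g, a⟩
    have : (fun q : G × (G → Bool) => q.2 q.1) =ᶠ[𝓝 (g, a)] (fun q => q.2 g) := by
      have : ∀ᶠ q : G × (G → Bool) in 𝓝 (g, a), q.1 = g := by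
        have h3 : IsOpen {q : G × (G → Bool) | q.1 = g} :=
          (isOpen_discrete ({g} : Set G)).preimage continuous_fst
        exact h3.mem_nhds rfl
      filter_upwards [this] with q hq
      rw [hq]
    refine ContinuousAt.congr ?_ this.symm
    exact ((continuous_apply g).comp continuous_snd).continuousAt
  exact h2.comp h1

/-- acting by a fixed element is a homeomorphism -/
def actH (γ : H → G) : (H → G → Bool) ≃ₜ (H → G → Bool) where
  toFun := act γ
  invFun := act γ⁻¹
  left_inv α := by funext h x; simp [act]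
  right_inv α := by funext h x; simp [act]
  continuous_toFun := continuous_act.comp (by fun_prop : Continuous fun α : H → G → Bool => (γ, α))
  continuous_invFun := continuous_act.comp (by fun_prop : Continuous fun α : H → G → Bool => (γ⁻¹, α))

theorem isOpenMap_act : IsOpenMap (fun p : (H → G) × (H → G → Bool) => act p.1 p.2) := by
  intro U hU
  rw [isOpen_iff_forall_mem_open]
  rintro _ ⟨⟨γ, α⟩, hp, rfl⟩
  refine ⟨act γ '' {β | (γ, β) ∈ U}, ?_, ?_, ⟨α, hp, rfl⟩⟩
  · rintro _ ⟨β, hβ, rfl⟩
    exact ⟨(γ, β), hβ, rfl⟩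
  · exact (actH γ).isOpenMap _ (hU.preimage (by fun_prop : Continuous fun β => (γ, β)))

theorem continuous_mix_right {Y : Type} [TopologicalSpace Y] (F : Finset H) (a : H → Y) :
    Continuous (fun b : H → Y => mix F a b) := by
  refine continuous_pi fun h => ?_
  unfold mix
  by_cases hh : h ∈ F
  · simp only [hh, if_true]
    exact continuous_const
  · simp only [hh, if_false]
    exact continuous_apply h

theorem continuous_mix {Y : Type} [TopologicalSpace Y] (F : Finset H) :
    Continuous (fun p : (H → Y) × (H → Y) => mix F p.1 p.2) := by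
  refine continuous_pi fun h => ?_
  unfold mix
  by_cases hh : h ∈ F
  · simp only [hh, if_true]
    exact (continuous_apply h).comp continuous_fst
  · simp only [hh, if_false]
    exact (continuous_apply h).comp continuous_snd

/-- the map `(a, b) ↦ mix F a b` is open -/
theorem isOpenMap_mix {Y : Type} [TopologicalSpace Y] (F : Finset H) :
    IsOpenMap (fun p : (H → Y) × (H → Y) => mix F p.1 p.2) := by
  intro U hU
  rw [isOpen_iff_forall_mem_open]
  rintro _ ⟨⟨a, b⟩, hp, rfl⟩
  -- move only the coordinates which matter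
  have hc : Continuous (fun c : H → Y => (mix F c a, mix F b c)) := by
    refine Continuous.prodMk ?_ (continuous_mix_right F b)
    exact (continuous_mix F).comp (by fun_prop : Continuous fun c : H → Y => (c, a))
  refine ⟨(fun c : H → Y => (mix F c a, mix F b c)) ⁻¹' U, ?_, hU.preimage hc, ?_⟩
  · intro c hcU
    refine ⟨_, hcU, ?_⟩
    funext h
    unfold mix
    by_cases hh : h ∈ F <;> simp [hh]
  · change (mix F (mix F a b) a, mix F b (mix F a b)) ∈ U
    have e1 : mix F (mix F a b) a = a := by
      funext h
      unfold mix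
      by_cases hh : h ∈ F <;> simp [hh]
    have e2 : mix F b (mix F a b) = b := by
      funext h
      unfold mix
      by_cases hh : h ∈ F <;> simp [hh]
    rw [e1, e2]
    exact hp

/-- for discrete `G`, the map `δ ↦ mix F γ δ` is open -/
theorem isOpenMap_mix_right (F : Finset H) (γ : H → G) :
    IsOpenMap (fun δ : H → G => mix F γ δ) := by
  intro U hU
  rw [isOpen_iff_forall_mem_open]
  rintro _ ⟨δ, hp, rfl⟩
  refine ⟨{ε | (∀ h ∈ F, ε h = γ h)} ∩ (fun ε : H → G => mix F δ ε) ⁻¹' U, ?_, ?_, ?_⟩
  · rintro ε ⟨h1, h2⟩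
    refine ⟨_, h2, ?_⟩
    funext h
    unfold mix
    by_cases hh : h ∈ F
    · simp [hh, h1 h hh]
    · simp [hh]
  · refine IsOpen.inter ?_ (hU.preimage (continuous_mix_right F δ))
    have : {ε : H → G | (∀ h ∈ F, ε h = γ h)} = ⋂ h ∈ F, {ε | ε h = γ h} := by
      ext ε
      simp
    rw [this]
    refine isOpen_biInter_finset fun h _ => ?_
    have h3 : Continuous (fun ε : H → G => ε h) := continuous_apply h
    exact (isOpen_discrete ({γ h} : Set G)).preimage h3
  · refine ⟨fun h hh => by simp [mix, hh], ?_⟩
    change mix F δ (mix F γ δ) ∈ U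
    have e2 : mix F δ (mix F γ δ) = δ := by
      funext h
      unfold mix
      by_cases hh : h ∈ F <;> simp [hh]
    rw [e2]
    exact hp

/-- translates of finite sets in infinite groups -/
theorem exists_translate [Infinite G] (A B : Set G) (hA : A.Finite) (hB : B.Finite) :
    ∃ g : G, ∀ x ∈ A, g⁻¹ * x ∉ B := by
  have hfin : {g : G | ∃ x ∈ A, g⁻¹ * x ∈ B}.Finite := by
    have : {g : G | ∃ x ∈ A, g⁻¹ * x ∈ B} ⊆ (fun p : G × G => p.1 * p.2⁻¹) '' (A ×ˢ B) := by
      rintro g ⟨x, hx, hg⟩
      exact ⟨(x, g⁻¹ * x), ⟨hx, hg⟩, by simp⟩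
    exact ((hA.prod hB).image _).subset this
  obtain ⟨g, hg⟩ := hfin.exists_notMem
  exact ⟨g, fun x hx h => hg ⟨x, hx, h⟩⟩

/-- a nonempty open set contains all points which agree with a given one at finitely many
places -/
theorem exists_box {U : Set (H → G → Bool)} (hU : IsOpen U) {α : H → G → Bool} (hα : α ∈ U) :
    ∃ (F : Finset H) (A : Finset G), ∀ β : H → G → Bool,
      (∀ h ∈ F, ∀ x ∈ A, β h x = α h x) → β ∈ U := by
  classical
  obtain ⟨F, u, hu, hsub⟩ := isOpen_pi_iff.1 hU α hα
  have h1 : ∀ h : H, ∃ A : Finset G, h ∈ F → ∀ b : G → Bool, (∀ x ∈ A, b x = α h x) → b ∈ u h := by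
    intro h
    by_cases hh : h ∈ F
    · obtain ⟨A, v, hv, hsub'⟩ := isOpen_pi_iff.1 (hu h hh).1 (α h) (hu h hh).2
      refine ⟨A, fun _ b hb => hsub' ?_⟩
      intro x hx
      rw [hb x hx]
      exact (hv x hx).2
    · exact ⟨∅, fun h' => absurd h' hh⟩
  choose A hA using h1
  refine ⟨F, F.biUnion A, fun β hβ => hsub ?_⟩
  intro h hh
  refine hA h hh _ fun x hx => hβ h hh x ?_
  exact Finset.mem_biUnion.2 ⟨h, hh, hx⟩

/-- topological transitivity -/
theorem exists_act_mem [Infinite G] {V : Set (H → G → Bool)} (hV : IsOpen V) (hne : V.Nonempty) :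
    ∀ᶠ b in residual (H → G → Bool), ∃ δ : H → G, act δ b ∈ V := by
  classical
  refine residual_of_dense_open (s := {b | ∃ δ : H → G, act δ b ∈ V}) ?_ ?_
  · have : {b : H → G → Bool | ∃ δ : H → G, act δ b ∈ V} = ⋃ δ : H → G, (actH δ) ⁻¹' V := by
      ext b
      simp only [mem_iUnion]
      exact Iff.rfl
    rw [this]
    exact isOpen_iUnion fun δ => hV.preimage (actH δ).continuous
  · intro c
    rw [mem_closure_iff]
    intro U hU hcU
    obtain ⟨F, A, hFA⟩ := exists_box hU hcU
    obtain ⟨v, hv⟩ := hne
    obtain ⟨F', A', hFA'⟩ := exists_box hV hv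
    obtain ⟨g, hg⟩ := exists_translate (G := G) (A' : Set G) (A : Set G) A'.finite_toSet
      A.finite_toSet
    -- `b` agrees with `c` on `A`, and its translate with `v` on `A'`
    let b : H → G → Bool := fun h x => if x ∈ A then c h x else v h (g * x)
    refine ⟨b, hFA _ fun h _ x hx => by simp [b, hx], fun _ => g, hFA' _ fun h _ x hx => ?_⟩
    have h1 : g⁻¹ * x ∉ A := fun h => hg x hx (by simpa using h)
    simp [act, b, h1]

/-- evaluation at one coordinate avoids a countable set -/
theorem avoid_countable [Infinite G] (h0 : H) {Q : Set (G → Bool)} (hQ : Q.Countable) :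
    ∀ᶠ b in residual (H → G → Bool), b h0 ∉ Q := by
  classical
  have h1 : ∀ q ∈ Q, ∀ᶠ b in residual (H → G → Bool), b h0 ≠ q := by
    intro q _
    refine residual_of_dense_open (s := {b : H → G → Bool | b h0 ≠ q}) ?_ ?_
    · have h3 : Continuous (fun b : H → G → Bool => b h0) := continuous_apply h0
      exact (isOpen_ne (x := q)).preimage h3
    · intro c
      rw [mem_closure_iff]
      intro U hU hcU
      obtain ⟨F, A, hFA⟩ := exists_box hU hcU
      obtain ⟨g, hg⟩ := Infinite.exists_notMem_finset A
      refine ⟨fun h x => if x ∈ A then c h x else !(q x), hFA _ fun h _ x hx => by simp [hx], ?_⟩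
      intro hq
      have := congrFun hq g
      simp [hg] at this
  have h2 : ∀ᶠ b in residual (H → G → Bool), ∀ q ∈ Q, b h0 ≠ q :=
    (eventually_countable_ball hQ).2 h1
  filter_upwards [h2] with b hb hmem
  exact hb _ hmem rfl

/-- a function with the Baire property which is generically constant along the action of `G^H` is
constant on a comeagre set -/
theorem const_of_inv [Infinite G] [Countable G] [Countable H] {W : Type*} [TopologicalSpace W]
    [SecondCountableTopology W] [T0Space W] [MeasurableSpace W] [BorelSpace W]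
    {f : (H → G → Bool) → W} (hf : @Measurable _ _ (borel (H → G → Bool)) _ f)
    {φ : (H → G → Bool) → W}
    (h : ∀ᶠ p in residual ((H → G) × (H → G → Bool)), f (act p.1 p.2) = φ p.2) :
    ∀ᶠ b in residual (H → G → Bool), ∀ᶠ b' in residual (H → G → Bool), f b = f b' := by
  classical
  obtain ⟨B, hBc, -, hB⟩ := TopologicalSpace.exists_countable_basis W
  have hsw : ∀ᶠ b in residual (H → G → Bool), ∀ᶠ δ in residual (H → G), f (act δ b) = φ b :=
    ku' (P := fun δ b => f (act δ b) = φ b) h
  have key : ∀ O ∈ B, (∀ᶠ b in residual (H → G → Bool), f b ∈ O) ∨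
      (∀ᶠ b in residual (H → G → Bool), f b ∉ O) := by
    intro O hO
    have hOo : IsOpen O := hB.isOpen hO
    have hD : @MeasurableSet _ (borel (H → G → Bool)) (f ⁻¹' O) := hf hOo.measurableSet
    have hD' : BaireMeasurableSet (f ⁻¹' O) := by
      letI : MeasurableSpace (H → G → Bool) := borel _
      haveI : BorelSpace (H → G → Bool) := ⟨rfl⟩
      exact MeasurableSet.baireMeasurableSet hD
    obtain ⟨V, hV, hDV⟩ := hD'.residualEq_isOpen
    have hDV' : ∀ᶠ b in residual (H → G → Bool), (f b ∈ O ↔ b ∈ V) := by
      filter_upwards [hDV] with b hb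
      exact iff_of_eq hb
    by_cases hne : V.Nonempty
    · left
      by_cases hd : Dense V
      · filter_upwards [hDV', residual_of_dense_open hV hd] with b h1 h2
        exact h1.2 h2
      · exfalso
        have hne' : ((closure V)ᶜ).Nonempty := by
          by_contra hcon
          rw [not_nonempty_iff_eq_empty, compl_empty_iff] at hcon
          exact hd (dense_iff_closure_eq.2 hcon)
        have e1 := exists_act_mem (G := G) hV hne
        have e2 := exists_act_mem (G := G) (isClosed_closure (s := V)).isOpen_compl hne'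
        have e3 : ∀ᶠ b in residual (H → G → Bool), ∀ᶠ δ in residual (H → G),
            (f (act δ b) ∈ O ↔ act δ b ∈ V) :=
          ku' (P := fun δ b => (f (act δ b) ∈ O ↔ act δ b ∈ V))
            ((tendsto_residual_of_isOpenMap continuous_act isOpenMap_act).eventually hDV')
        obtain ⟨b, -, h1, h2, h3, h4⟩ := exists_of_residual
          (e1.and (e2.and (e3.and hsw))) isOpen_univ ⟨fun _ _ => true, trivial⟩
        have hcont : Continuous (fun δ : H → G => act δ b) :=
          continuous_act.comp (by fun_prop : Continuous fun δ : H → G => (δ, b))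
        obtain ⟨δ, hδ, h5, h6⟩ := exists_of_residual (h3.and h4) (hV.preimage hcont) h1
        obtain ⟨δ', hδ', h7, h8⟩ := exists_of_residual (h3.and h4)
          ((isClosed_closure (s := V)).isOpen_compl.preimage hcont) h2
        have h9 : f (act δ' b) ∈ O := by rw [h8, ← h6]; exact h5.2 hδ
        exact hδ' (subset_closure (h7.1 h9))
    · right
      filter_upwards [hDV'] with b h1 h2
      exact hne ⟨b, h1.1 h2⟩
  have hall : ∀ᶠ b in residual (H → G → Bool), ∀ O ∈ B,
      (∀ᶠ b' in residual (H → G → Bool), f b' ∈ O) ↔ f b ∈ O := by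
    rw [eventually_countable_ball hBc]
    intro O hO
    rcases key O hO with h1 | h1
    · filter_upwards [h1] with b hb
      exact ⟨fun _ => hb, fun _ => h1⟩
    · filter_upwards [h1] with b hb
      refine ⟨fun h2 => ?_, fun h2 => absurd h2 hb⟩
      obtain ⟨b', -, h3, h4⟩ := exists_of_residual (h1.and h2) isOpen_univ
        ⟨fun _ _ => true, trivial⟩
      exact absurd h4 h3
  filter_upwards [hall] with b hb
  filter_upwards [hall] with b' hb'
  refine (hB.inseparable_iff.2 ?_).eq
  intro O hO
  rw [← hb O hO, ← hb' O hO]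

end

end Pool.Agent.TH724.GJ
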