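import Mathlib
import Pool.Agent.H579R3.Epi2

set_option autoImplicit false

open Set
open Pool.Agent.H579R3.Epi (K IsAuto TLe)

namespace Pool.Agent.TH724.EE

/-! ## The structures coding labelled trees, up to elementary embeddings -/

/-- the symbols: root, child, and the gadget relations -/
abbrev Sym : Type := Option (Option (K × ℕ))

/-- the points of the reduced structure: nodes and gadget points with a colour; the colour `none`
is the colour `∞`. -/
inductive D : Type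
  | nd (p : List ℤ) : D
  | gad (p : List ℤ) (κ : K) (c : Option ℕ) : D

export D (nd gad)

/-- a code for the elements of `D` -/
def D.code : D → List ℤ × Option (K × Option ℕ)
  | .nd p => (p, none)
  | .gad p κ c => (p, some (κ, c))

lemma D.code_injective : Function.Injective D.code := by
  intro a b h
  cases a <;> cases b <;> simp_all [D.code]

instance : Countable D := D.code_injective.countable

lemma nd_inj {p q : List ℤ} (h : nd p = nd q) : p = q := by
  simpa using h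

lemma gad_inj {p q : List ℤ} {κ κ' : K} {c c' : Option ℕ} (h : gad p κ c = gad q κ' c') :
    p = q ∧ κ = κ' ∧ c = c' := by
  simpa using h

lemma nd_ne_gad {p q : List ℤ} {κ : K} {c : Option ℕ} : nd p ≠ gad q κ c := by simp

lemma D_cases (d : D) : (∃ p, d = nd p) ∨ ∃ p κ c, d = gad p κ c := by
  rcases d with p | ⟨p, κ, c⟩
  · exact Or.inl ⟨p, rfl⟩
  · exact Or.inr ⟨p, κ, c, rfl⟩

/-- truncation of colours -/
def trunc (n : ℕ) : Option ℕ → ℕ
  | some c => min c n
  | none => n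

/-- the colour is at least `m` -/
def geq (m : ℕ) (c : Option ℕ) : Prop := ∀ c', c = some c' → m ≤ c'

lemma geq_some {m c : ℕ} : geq m (some c) ↔ m ≤ c := by simp [geq]

lemma geq_none {m : ℕ} : geq m none := by simp [geq]

lemma geq_trunc {m n : ℕ} (h : m ≤ n) (c : Option ℕ) : geq m (some (trunc n c)) ↔ geq m c := by
  rcases c with _ | c
  · simp [trunc, geq, h]
  · simp [trunc, geq, h]

lemma geq_ext {c c' : Option ℕ} (h : ∀ m, geq m c ↔ geq m c') : c = c' := by
  rcases c with _ | c <;> rcases c' with _ | c'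
  · rfl
  · have := (h (c' + 1)).1 geq_none
    rw [geq_some] at this
    omega
  · have := (h (c + 1)).2 geq_none
    rw [geq_some] at this
    omega
  · have h1 := (h c).1 (by rw [geq_some])
    have h2 := (h c').2 (by rw [geq_some])
    rw [geq_some] at h1 h2
    rw [le_antisymm h1 h2]

/-- the relations of the reduced structure -/
def rel : Sym → D → D → Prop
  | none, a, b => a = nd [] ∧ b = nd []
  | some none, a, b => ∃ p k, a = nd p ∧ b = nd (k :: p)
  | some (some (κ, m)), a, b => ∃ p c, a = nd p ∧ b = gad p κ c ∧ geq m c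

/-- identify the colours `≥ n` -/
def cl (n : ℕ) : D → D
  | .nd p => nd p
  | .gad p κ c => gad p κ (some (trunc n c))

/-- the symbol has index at most `n` -/
def small (n : ℕ) : Sym → Prop
  | none => True
  | some none => True
  | some (some (_, m)) => m ≤ n

lemma small_mono {n m : ℕ} (h : n ≤ m) {i : Sym} (hi : small n i) : small m i := by
  rcases i with _ | _ | ⟨κ, k⟩
  · trivial
  · trivial
  · exact le_trans hi h

lemma exists_small (i : Sym) : ∃ n, small n i := by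
  rcases i with _ | _ | ⟨κ, k⟩
  · exact ⟨0, trivial⟩
  · exact ⟨0, trivial⟩
  · exact ⟨k, le_rfl⟩

lemma cl_nd_iff {n : ℕ} {a : D} {p : List ℤ} : cl n a = nd p ↔ a = nd p := by
  rcases D_cases a with ⟨q, rfl⟩ | ⟨q, κ, c, rfl⟩ <;> simp [cl]

lemma rel_cl {n : ℕ} {i : Sym} (hi : small n i) (a b : D) :
    rel i (cl n a) (cl n b) ↔ rel i a b := by
  rcases i with _ | _ | ⟨κ, m⟩
  · simp only [rel, cl_nd_iff]
  · simp only [rel, cl_nd_iff]
  · simp only [rel, cl_nd_iff]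
    constructor
    · rintro ⟨p, c, h1, h2, h3⟩
      rcases D_cases b with ⟨q, rfl⟩ | ⟨q, κ', c', rfl⟩
      · simp [cl] at h2
      · simp only [cl] at h2
        obtain ⟨rfl, rfl, rfl⟩ := gad_inj h2
        exact ⟨q, c', h1, rfl, (geq_trunc hi c').1 h3⟩
    · rintro ⟨p, c, h1, rfl, h3⟩
      exact ⟨p, some (trunc n c), h1, rfl, (geq_trunc hi c).2 h3⟩

/-- the map of `D` induced by a map of the tree -/
def mapD (g : List ℤ → List ℤ) : D → D
  | .nd p => nd (g p)
  | .gad p κ c => gad (g p) κ c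

lemma mapD_nd (g : List ℤ → List ℤ) (p : List ℤ) : mapD g (nd p) = nd (g p) := rfl
lemma mapD_gad (g : List ℤ → List ℤ) (p : List ℤ) (κ : K) (c : Option ℕ) :
    mapD g (gad p κ c) = gad (g p) κ c := rfl

lemma mapD_inj {g : List ℤ → List ℤ} (hg : Function.Injective g) :
    Function.Injective (mapD g) := by
  intro a b h
  cases a <;> cases b <;> simp [mapD] at h ⊢
  · exact hg h
  · exact ⟨hg h.1, h.2⟩

lemma cl_mapD (n : ℕ) (g : List ℤ → List ℤ) (d : D) : cl n (mapD g d) = mapD g (cl n d) := by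
  cases d <;> rfl

lemma rel_mapD {g : List ℤ → List ℤ} (hg : IsAuto g) (i : Sym) (a b : D) :
    rel i (mapD g a) (mapD g b) ↔ rel i a b := by
  have hnil : ∀ p, g p = [] ↔ p = [] := fun p =>
    ⟨fun h => hg.bij.1 (by rw [h, hg.nil]), fun h => by rw [h, hg.nil]⟩
  rcases i with _ | _ | ⟨κ, m⟩
  · rcases D_cases a with ⟨p, rfl⟩ | ⟨p, κ, c, rfl⟩ <;>
      rcases D_cases b with ⟨q, rfl⟩ | ⟨q, κ', c', rfl⟩ <;> simp [rel, mapD, hnil]
  · simp only [rel]
    constructor
    · rintro ⟨p, k, h1, h2⟩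
      rcases D_cases a with ⟨p', rfl⟩ | ⟨p', κ, c, rfl⟩
      · rcases D_cases b with ⟨q', rfl⟩ | ⟨q', κ', c', rfl⟩
        · rw [mapD_nd] at h1 h2
          have e1 := nd_inj h1
          have e2 := nd_inj h2
          rcases q' with _ | ⟨k', q'⟩
          · rw [hg.nil] at e2
            exact absurd e2 (by simp)
          · obtain ⟨k'', e3⟩ := hg.cons k' q'
            rw [e3] at e2
            have e4 := (List.cons.inj e2).2
            rw [← e1] at e4
            have e5 := hg.bij.1 e4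
            exact ⟨p', k', rfl, by rw [e5]⟩
        · simp [mapD] at h2
      · simp [mapD] at h1
    · rintro ⟨p, k, rfl, rfl⟩
      obtain ⟨k', e⟩ := hg.cons k p
      exact ⟨g p, k', rfl, by rw [mapD_nd, e]⟩
  · simp only [rel]
    constructor
    · rintro ⟨p, c, h1, h2, h3⟩
      rcases D_cases a with ⟨p', rfl⟩ | ⟨p', κ', c', rfl⟩
      · rcases D_cases b with ⟨q', rfl⟩ | ⟨q', κ', c', rfl⟩
        · simp [mapD] at h2
        · rw [mapD_nd] at h1
          rw [mapD_gad] at h2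
          have e1 := nd_inj h1
          obtain ⟨e2, rfl, rfl⟩ := gad_inj h2
          rw [← e1] at e2
          have e3 := hg.bij.1 e2
          exact ⟨p', c', rfl, by rw [e3], h3⟩
      · simp [mapD] at h1
    · rintro ⟨p, c, rfl, rfl, h3⟩
      exact ⟨g p, c, rfl, rfl, h3⟩

/-! ## Prescribed fibres -/

/-- the points of `D` with infinite fibres, for the labelling `Λ` -/
def J (Λ : List ℤ → Set K) (d : D) : Prop :=
  ∃ p κ c, d = gad p κ c ∧ (c = none → κ ∈ Λ p)

/-- nodes -/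
def isNd (d : D) : Prop := ∃ p, d = nd p

lemma isNd_nd (p : List ℤ) : isNd (nd p) := ⟨p, rfl⟩

lemma not_isNd_gad (p : List ℤ) (κ : K) (c : Option ℕ) : ¬ isNd (gad p κ c) := by
  rintro ⟨q, h⟩
  simp at h

lemma not_J_nd (Λ : List ℤ → Set K) (p : List ℤ) : ¬ J Λ (nd p) := by
  rintro ⟨q, κ, c, h, _⟩
  exact nd_ne_gad h

lemma J_some (Λ : List ℤ → Set K) (p : List ℤ) (κ : K) (c : ℕ) : J Λ (gad p κ (some c)) :=
  ⟨p, κ, some c, rfl, fun h => by simp at h⟩

lemma J_none (Λ : List ℤ → Set K) (p : List ℤ) (κ : K) : J Λ (gad p κ none) ↔ κ ∈ Λ p := by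
  constructor
  · rintro ⟨q, κ', c, h, h'⟩
    obtain ⟨rfl, rfl, rfl⟩ := gad_inj h
    exact h' rfl
  · intro h
    exact ⟨p, κ, none, rfl, fun _ => h⟩

/-- the fibres of `π` are as prescribed by the labelling `Λ` -/
def Fib (Λ : List ℤ → Set K) (π : ℕ → D) : Prop :=
  ∀ d, (J Λ d → {n | π n = d}.Infinite) ∧ (isNd d → ∃! n, π n = d) ∧
    (¬ J Λ d → ¬ isNd d → ∀ n, π n ≠ d)

section Fibres

variable {Λ : List ℤ → Set K} {π : ℕ → D}

lemma Fib.node (h : Fib Λ π) (p : List ℤ) : ∃ n, π n = nd p := by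
  obtain ⟨n, hn, _⟩ := (h (nd p)).2.1 (isNd_nd p)
  exact ⟨n, hn⟩

lemma Fib.node_uniq (h : Fib Λ π) {p : List ℤ} {n m : ℕ} (hn : π n = nd p) (hm : π m = nd p) :
    n = m :=
  ((h (nd p)).2.1 (isNd_nd p)).unique hn hm

lemma Fib.some_inf (h : Fib Λ π) (p : List ℤ) (κ : K) (c : ℕ) :
    {n | π n = gad p κ (some c)}.Infinite :=
  (h _).1 (J_some Λ p κ c)

lemma Fib.none_inf (h : Fib Λ π) {p : List ℤ} {κ : K} (hκ : κ ∈ Λ p) :
    {n | π n = gad p κ none}.Infinite :=
  (h _).1 ((J_none Λ p κ).2 hκ)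

lemma Fib.mem_of_none (h : Fib Λ π) {p : List ℤ} {κ : K} {n : ℕ} (hn : π n = gad p κ none) :
    κ ∈ Λ p := by
  by_contra hκ
  exact (h (gad p κ none)).2.2 (fun hJ => hκ ((J_none Λ p κ).1 hJ)) (not_isNd_gad _ _ _) n hn

end Fibres

/-! ## From embeddings to maps of trees -/

/-- an atomic embedding between pull-backs -/
def Emb (π ρ : ℕ → D) (j : ℕ → ℕ) : Prop :=
  ∀ i a b, rel i (π a) (π b) ↔ rel i (ρ (j a)) (ρ (j b))

section

variable {Λ Λ' : List ℤ → Set K} {π ρ : ℕ → D} {j : ℕ → ℕ}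

lemma node_of (hF : Fib Λ π) (h : Emb π ρ j) {n : ℕ} {p : List ℤ}
    (hn : π n = nd p) : ∃ p', ρ (j n) = nd p' := by
  obtain ⟨m, hm⟩ := hF.node (0 :: p)
  have h1 : rel (some none) (π n) (π m) := ⟨p, 0, hn, hm⟩
  rw [h] at h1
  obtain ⟨p', _, h2, _⟩ := h1
  exact ⟨p', h2⟩

lemma exists_g (hF : Fib Λ π) (h : Emb π ρ j) :
    ∃ g : List ℤ → List ℤ, ∀ n p, π n = nd p → ρ (j n) = nd (g p) := by
  have h1 : ∀ p, ∃ p', ∀ n, π n = nd p → ρ (j n) = nd p' := by
    intro p
    obtain ⟨n, hn⟩ := hF.node p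
    obtain ⟨p', hp'⟩ := node_of hF h hn
    exact ⟨p', fun m hm => by rw [← hp', hF.node_uniq hm hn]⟩
  choose g hg using h1
  exact ⟨g, fun n p hn => hg p n hn⟩

lemma gad_of (hF : Fib Λ π) (h : Emb π ρ j) {g : List ℤ → List ℤ}
    (hg : ∀ n p, π n = nd p → ρ (j n) = nd (g p)) {n : ℕ} {p : List ℤ} {κ : K} {c : Option ℕ}
    (hn : π n = gad p κ c) : ρ (j n) = gad (g p) κ c := by
  obtain ⟨m, hm⟩ := hF.node p
  have h0 : ∀ k, geq k c ↔ rel (some (some (κ, k))) (ρ (j m)) (ρ (j n)) := by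
    intro k
    rw [← h, hm, hn]
    simp only [rel]
    constructor
    · intro hk
      exact ⟨p, c, rfl, rfl, hk⟩
    · rintro ⟨p', c', h1, h2, h3⟩
      obtain ⟨-, -, rfl⟩ := gad_inj h2
      exact h3
  have hm' := hg m p hm
  have h1 := (h0 0).1 (fun _ _ => Nat.zero_le _)
  obtain ⟨p', c', h2, h3, -⟩ := h1
  rw [hm'] at h2
  have e := nd_inj h2
  subst e
  rw [h3]
  have : c = c' := by
    apply geq_ext
    intro k
    rw [h0 k, hm', h3]
    simp only [rel]
    constructor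
    · rintro ⟨p', c'', h4, h5, h6⟩
      obtain ⟨-, -, rfl⟩ := gad_inj h5
      exact h6
    · intro hk
      exact ⟨g p, c', rfl, rfl, hk⟩
  rw [this]

lemma g_nil (hF : Fib Λ π) (h : Emb π ρ j) {g : List ℤ → List ℤ}
    (hg : ∀ n p, π n = nd p → ρ (j n) = nd (g p)) : g [] = [] := by
  obtain ⟨n, hn⟩ := hF.node []
  have h1 : rel none (π n) (π n) := ⟨hn, hn⟩
  rw [h] at h1
  have h2 := h1.1
  rw [hg n [] hn] at h2
  exact nd_inj h2

lemma g_cons (hF : Fib Λ π) (h : Emb π ρ j) {g : List ℤ → List ℤ}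
    (hg : ∀ n p, π n = nd p → ρ (j n) = nd (g p)) (k : ℤ) (p : List ℤ) :
    ∃ k', g (k :: p) = k' :: g p := by
  obtain ⟨n, hn⟩ := hF.node p
  obtain ⟨m, hm⟩ := hF.node (k :: p)
  have h3 : rel (some none) (π n) (π m) := ⟨p, k, hn, hm⟩
  rw [h, hg n p hn, hg m _ hm] at h3
  obtain ⟨q, k', h4, h5⟩ := h3
  refine ⟨k', ?_⟩
  rw [nd_inj h4, nd_inj h5]

/-- An atomic embedding of the coding structures gives a map of the labelled trees. -/
theorem map_of_emb (hF : Fib Λ π) (hF' : Fib Λ' ρ) (h : Emb π ρ j) :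
    ∃ g : List ℤ → List ℤ, g [] = [] ∧ (∀ k p, ∃ k', g (k :: p) = k' :: g p) ∧
      ∀ p, Λ p ⊆ Λ' (g p) := by
  obtain ⟨g, hg⟩ := exists_g hF h
  refine ⟨g, g_nil hF h hg, g_cons hF h hg, ?_⟩
  intro p κ hκ
  obtain ⟨n, hn⟩ := (hF.none_inf hκ).nonempty
  exact hF'.mem_of_none (gad_of hF h hg hn)

/-- Equal coding structures come from isomorphic labelled trees. -/
theorem iso_of_eq (hF : Fib Λ π) (hF' : Fib Λ' ρ) (h : Emb π ρ id) :
    ∃ g, IsAuto g ∧ (∀ n, ρ n = mapD g (π n)) ∧ ∀ p, Λ p = Λ' (g p) := by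
  have h' : Emb ρ π id := fun i a b => (h i a b).symm
  obtain ⟨g, hg⟩ := exists_g hF h
  obtain ⟨g', hg'⟩ := exists_g hF' h'
  have h1 : ∀ p, g' (g p) = p := by
    intro p
    obtain ⟨n, hn⟩ := hF.node p
    have := hg' n (g p) (hg n p hn)
    rw [id, hn] at this
    exact (nd_inj this).symm
  have h2 : ∀ p, g (g' p) = p := by
    intro p
    obtain ⟨n, hn⟩ := hF'.node p
    have := hg n (g' p) (hg' n p hn)
    rw [id, hn] at this
    exact (nd_inj this).symm
  refine ⟨g, ⟨⟨?_, fun p => ⟨g' p, h2 p⟩⟩, g_nil hF h hg, g_cons hF h hg⟩, ?_, ?_⟩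
  · intro p q hpq
    rw [← h1 p, hpq, h1]
  · intro n
    rcases D_cases (π n) with ⟨p, hn⟩ | ⟨p, κ, c, hn⟩
    · rw [hn, mapD_nd]
      exact hg n p hn
    · rw [hn, mapD_gad]
      exact gad_of hF h hg hn
  · intro p
    ext κ
    constructor
    · intro hκ
      obtain ⟨n, hn⟩ := (hF.none_inf hκ).nonempty
      exact hF'.mem_of_none (gad_of hF h hg hn)
    · intro hκ
      obtain ⟨n, hn⟩ := (hF'.none_inf hκ).nonempty
      have := hF.mem_of_none (gad_of hF' h' hg' hn)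
      rwa [h1] at this

end

/-! ## From maps of trees to similar tuples -/

/-- the tuples `v` and `w` are similar with respect to the symbols of index at most `n` -/
def Sim (π ρ : ℕ → D) (g : List ℤ → List ℤ) (n : ℕ) {ι : Type} (v w : ι → ℕ) : Prop :=
  (∀ i k, v i = v k ↔ w i = w k) ∧ ∀ i, cl n (ρ (w i)) = mapD g (cl n (π (v i)))

section

variable {Λ Λ' : List ℤ → Set K} {π ρ : ℕ → D} {g : List ℤ → List ℤ}

lemma Sim.rel_iff (hg : IsAuto g) {n : ℕ} {ι : Type} {v w : ι → ℕ} (h : Sim π ρ g n v w)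
    {s : Sym} (hs : small n s) (i k : ι) :
    rel s (π (v i)) (π (v k)) ↔ rel s (ρ (w i)) (ρ (w k)) := by
  rw [← rel_cl hs (ρ (w i)), h.2, h.2, rel_mapD hg, rel_cl hs]

lemma Sim.forth (hg : IsAuto g) (hF : Fib Λ π) (hF' : Fib Λ' ρ) {n : ℕ} {ι : Type} [Finite ι]
    {v w : ι → ℕ} (h : Sim π ρ g n v w) (a : ℕ) :
    ∃ b, (∀ i, v i = a ↔ w i = b) ∧ cl n (ρ b) = mapD g (cl n (π a)) := by
  by_cases ha : ∃ i, v i = a
  · obtain ⟨i, rfl⟩ := ha
    exact ⟨w i, fun k => h.1 k i, h.2 i⟩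
  · have ha' : ∀ i, v i ≠ a := fun i hi => ha ⟨i, hi⟩
    rcases D_cases (π a) with ⟨p, hp⟩ | ⟨p, κ, c, hp⟩
    · obtain ⟨b, hb⟩ := hF'.node (g p)
      refine ⟨b, fun i => ⟨fun hi => absurd hi (ha' i), fun hi => ?_⟩, ?_⟩
      · exfalso
        have h2 := h.2 i
        rw [hi, hb, show cl n (nd (g p)) = mapD g (nd p) from rfl] at h2
        have h3 := mapD_inj hg.bij.1 h2
        have h4 : π (v i) = nd p := cl_nd_iff.1 h3.symm
        exact ha' i (hF.node_uniq h4 hp)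
      · rw [hb, hp]
        rfl
    · obtain ⟨b, hb, hb'⟩ := (hF'.some_inf (g p) κ (trunc n c)).exists_notMem_finset
        (Set.finite_range w).toFinset
      have hb2 : ∀ i, w i ≠ b := fun i hi => hb' (by simp [← hi])
      refine ⟨b, fun i => ⟨fun hi => absurd hi (ha' i), fun hi => absurd hi (hb2 i)⟩, ?_⟩
      have hb3 : ρ b = gad (g p) κ (some (trunc n c)) := hb
      rw [hb3, hp]
      simp only [cl, mapD, trunc]
      rcases c with _ | c <;> simp

lemma Sim.back (hg : IsAuto g) (hF : Fib Λ π) (hF' : Fib Λ' ρ) {n : ℕ} {ι : Type} [Finite ι]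
    {v w : ι → ℕ} (h : Sim π ρ g n v w) (b : ℕ) :
    ∃ a, (∀ i, v i = a ↔ w i = b) ∧ cl n (ρ b) = mapD g (cl n (π a)) := by
  by_cases hb : ∃ i, w i = b
  · obtain ⟨i, rfl⟩ := hb
    exact ⟨v i, fun k => h.1 k i, h.2 i⟩
  · have hb' : ∀ i, w i ≠ b := fun i hi => hb ⟨i, hi⟩
    rcases D_cases (ρ b) with ⟨q, hp⟩ | ⟨q, κ, c, hp⟩
    · obtain ⟨p, rfl⟩ := hg.bij.2 q
      obtain ⟨a, ha⟩ := hF.node p
      refine ⟨a, fun i => ⟨fun hi => ?_, fun hi => absurd hi (hb' i)⟩, ?_⟩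
      · exfalso
        have h2 := h.2 i
        rw [hi, ha, show mapD g (cl n (nd p)) = nd (g p) from rfl] at h2
        exact hb' i (hF'.node_uniq (cl_nd_iff.1 h2) hp)
      · rw [hp, ha]
        rfl
    · obtain ⟨p, rfl⟩ := hg.bij.2 q
      obtain ⟨a, ha, ha'⟩ := (hF.some_inf p κ (trunc n c)).exists_notMem_finset
        (Set.finite_range v).toFinset
      have ha2 : ∀ i, v i ≠ a := fun i hi => ha' (by simp [← hi])
      refine ⟨a, fun i => ⟨fun hi => absurd hi (ha2 i), fun hi => absurd hi (hb' i)⟩, ?_⟩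
      have ha3 : π a = gad p κ (some (trunc n c)) := ha
      rw [ha3, hp]
      simp only [cl, mapD, trunc]
      rcases c with _ | c <;> simp

lemma exists_injOn {S T : Set ℕ} (h : T.Infinite ∨ ((∀ a ∈ S, ∀ b ∈ S, a = b) ∧ T.Nonempty) ∨
    S = ∅) : ∃ f : ℕ → ℕ, (∀ s ∈ S, f s ∈ T) ∧ ∀ s ∈ S, ∀ t ∈ S, f s = f t → s = t := by
  rcases h with h | ⟨h, t, ht⟩ | rfl
  · have := h.to_subtype
    refine ⟨fun s => (Infinite.natEmbedding T s : ℕ), fun s _ => (Infinite.natEmbedding T s).2, ?_⟩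
    intro s _ t _ hst
    exact (Infinite.natEmbedding T).injective (Subtype.ext hst)
  · exact ⟨fun _ => t, fun _ _ => ht, fun s hs t ht _ => h s hs t ht⟩
  · exact ⟨id, fun s hs => absurd hs (notMem_empty _), fun s hs => absurd hs (notMem_empty _)⟩

/-- a map of the labelled trees gives an embedding which preserves colours -/
lemma exists_j (hg : IsAuto g) (hF : Fib Λ π) (hF' : Fib Λ' ρ) (hΛ : ∀ p, Λ p ⊆ Λ' (g p)) :
    ∃ j : ℕ → ℕ, Function.Injective j ∧ ∀ m, ρ (j m) = mapD g (π m) := by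
  have h1 : ∀ d : D, ∃ f : ℕ → ℕ, (∀ s ∈ {n | π n = d}, f s ∈ {n | ρ n = mapD g d}) ∧
      ∀ s ∈ {n | π n = d}, ∀ t ∈ {n | π n = d}, f s = f t → s = t := by
    intro d
    apply exists_injOn
    rcases D_cases d with ⟨p, rfl⟩ | ⟨p, κ, c, rfl⟩
    · right; left
      refine ⟨fun a ha b hb => hF.node_uniq ha hb, ?_⟩
      obtain ⟨b, hb⟩ := hF'.node (g p)
      exact ⟨b, hb⟩
    · rcases c with _ | c
      · by_cases hκ : κ ∈ Λ p
        · left
          exact hF'.none_inf (hΛ p hκ)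
        · right; right
          ext n
          simp only [mem_ofPred_eq, mem_empty_iff_false, iff_false]
          intro hn
          exact hκ (hF.mem_of_none hn)
      · left
        exact hF'.some_inf (g p) κ c
  choose f hf1 hf2 using h1
  refine ⟨fun m => f (π m) m, ?_, fun m => hf1 (π m) m rfl⟩
  intro m m' hm
  have e1 : ρ (f (π m) m) = mapD g (π m) := hf1 (π m) m rfl
  have e2 : ρ (f (π m') m') = mapD g (π m') := hf1 (π m') m' rfl
  have e3 : π m = π m' := by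
    apply mapD_inj hg.bij.1
    rw [← e1, ← e2]
    exact congrArg ρ hm
  apply hf2 (π m) m rfl m' e3.symm
  simp only at hm
  rw [hm, e3]

lemma sim_j {j : ℕ → ℕ} (hj : Function.Injective j) (hj' : ∀ m, ρ (j m) = mapD g (π m)) (n : ℕ)
    {ι : Type} (v : ι → ℕ) : Sim π ρ g n v (j ∘ v) := by
  refine ⟨fun i k => ⟨fun h => congrArg j h, fun h => hj h⟩, fun i => ?_⟩
  rw [Function.comp, hj', cl_mapD]

end

end Pool.Agent.TH724.EE
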