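import Mathlib
import Pool.Agent.TH724.EE1

set_option autoImplicit false

open Set
open Pool.Agent.H579R3.Epi (K IsAuto TLe)

namespace Pool.Agent.TH724.EE

/-! ## Elementary embeddings -/

/-- structures in a language with countably many binary relation symbols -/
abbrev Str : Type := ℕ → (Fin 2 → ℕ) → Bool

/-- the language -/
abbrev Lg : FirstOrder.Language :=
  FirstOrder.Language.mk (fun _ => PEmpty.{1}) (fun n => {_i : ℕ // 2 = n})

/-- the structure on `ℕ` coded by `u` -/
abbrev St (u : Str) : Lg.Structure ℕ :=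
  @FirstOrder.Language.Structure.mk
    (FirstOrder.Language.mk (fun _ => PEmpty.{1}) (fun n => {_i : ℕ // 2 = n})) ℕ
    (fun f _ => PEmpty.elim f)
    (fun r xs => u (Subtype.val r) (xs ∘ Fin.cast (Subtype.property r)) = true)

open Classical in
/-- the structure on `ℕ` pulled back from the reduced structure -/
noncomputable def pull (s : ℕ → Sym) (π : ℕ → D) : Str :=
  fun i v => decide (rel (s i) (π (v 0)) (π (v 1)))

lemma pull_iff (s : ℕ → Sym) (π : ℕ → D) (i : ℕ) (v : Fin 2 → ℕ) :
    pull s π i v = true ↔ rel (s i) (π (v 0)) (π (v 1)) := by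
  classical
  unfold pull
  rw [decide_eq_true_iff]

/-- satisfaction in the structure coded by `u` -/
def Rz (u : Str) {α : Type} {k : ℕ} (φ : Lg.BoundedFormula α k) (v : α → ℕ) (xs : Fin k → ℕ) :
    Prop :=
  @FirstOrder.Language.BoundedFormula.Realize Lg ℕ (St u) α k φ v xs

lemma rz_falsum (u : Str) {α : Type} {k : ℕ} (v : α → ℕ) (xs : Fin k → ℕ) :
    Rz u (FirstOrder.Language.BoundedFormula.falsum) v xs ↔ False := Iff.rfl

lemma rz_imp (u : Str) {α : Type} {k : ℕ} (φ ψ : Lg.BoundedFormula α k) (v : α → ℕ)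
    (xs : Fin k → ℕ) :
    Rz u (φ.imp ψ) v xs ↔ (Rz u φ v xs → Rz u ψ v xs) := Iff.rfl

lemma rz_all (u : Str) {α : Type} {k : ℕ} (φ : Lg.BoundedFormula α (k + 1)) (v : α → ℕ)
    (xs : Fin k → ℕ) :
    Rz u (φ.all) v xs ↔ ∀ x : ℕ, Rz u φ v (Fin.snoc xs x) := Iff.rfl

lemma term_var {β : Type} (t : Lg.Term β) : ∃ b, t = FirstOrder.Language.Term.var b := by
  cases t with
  | var b => exact ⟨b, rfl⟩
  | func f ts => exact PEmpty.elim f

lemma rz_equal (u : Str) {α : Type} {k : ℕ} (a b : α ⊕ Fin k) (v : α → ℕ)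
    (xs : Fin k → ℕ) :
    Rz u (FirstOrder.Language.BoundedFormula.equal (FirstOrder.Language.Term.var a)
      (FirstOrder.Language.Term.var b)) v xs ↔ Sum.elim v xs a = Sum.elim v xs b := Iff.rfl

lemma rz_rel (u : Str) {α : Type} {k : ℕ} (r : {_i : ℕ // 2 = 2}) (b : Fin 2 → α ⊕ Fin k)
    (v : α → ℕ) (xs : Fin k → ℕ) :
    Rz u (FirstOrder.Language.BoundedFormula.rel (L := Lg) (l := 2) r
      (fun i => FirstOrder.Language.Term.var (b i))) v xs ↔
      u r.1 (fun i => Sum.elim v xs (b i)) = true := Iff.rfl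

section

variable {Λ Λ' : List ℤ → Set K} {π ρ : ℕ → D} {g : List ℤ → List ℤ}

lemma elim_snoc {m k : ℕ} (v : Fin m → ℕ) (xs : Fin k → ℕ) (a : ℕ) (i : Fin m ⊕ Fin (k + 1)) :
    (∃ i', (Sum.elim v (Fin.snoc (α := fun _ => ℕ) xs a) i = Sum.elim v xs i') ∧
      ∀ (w : Fin m → ℕ) (ys : Fin k → ℕ) (b : ℕ),
        Sum.elim w (Fin.snoc (α := fun _ => ℕ) ys b) i = Sum.elim w ys i') ∨
    (i = Sum.inr (Fin.last k)) := by
  rcases i with i | i
  · left
    exact ⟨Sum.inl i, rfl, fun _ _ _ => rfl⟩
  · induction i using Fin.lastCases with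
    | last => exact Or.inr rfl
    | cast i =>
      left
      refine ⟨Sum.inr i, ?_, fun _ _ _ => ?_⟩
      · simp
      · simp

lemma sim_snoc {n m k : ℕ} {v w : Fin m → ℕ} {xs ys : Fin k → ℕ}
    (h : Sim π ρ g n (Sum.elim v xs) (Sum.elim w ys)) {a b : ℕ}
    (h1 : ∀ i, Sum.elim v xs i = a ↔ Sum.elim w ys i = b)
    (h2 : cl n (ρ b) = mapD g (cl n (π a))) :
    Sim π ρ g n (Sum.elim v (Fin.snoc (α := fun _ => ℕ) xs a))
      (Sum.elim w (Fin.snoc (α := fun _ => ℕ) ys b)) := by
  have hl1 : Sum.elim v (Fin.snoc (α := fun _ => ℕ) xs a) (Sum.inr (Fin.last k)) = a := by simp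
  have hl2 : Sum.elim w (Fin.snoc (α := fun _ => ℕ) ys b) (Sum.inr (Fin.last k)) = b := by simp
  constructor
  · intro i i'
    rcases elim_snoc v xs a i with ⟨j, e1, e2⟩ | rfl <;>
      rcases elim_snoc v xs a i' with ⟨j', e3, e4⟩ | rfl
    · rw [e1, e3, e2 w ys b, e4 w ys b]
      exact h.1 j j'
    · rw [e1, e2 w ys b, hl1, hl2]
      exact h1 j
    · rw [e3, e4 w ys b, hl1, hl2]
      exact ⟨fun h3 => ((h1 j').1 h3.symm).symm, fun h3 => ((h1 j').2 h3.symm).symm⟩
    · rw [hl1, hl2]
      simp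
  · intro i
    rcases elim_snoc v xs a i with ⟨j, e1, e2⟩ | rfl
    · rw [e1, e2 w ys b]
      exact h.2 j
    · rw [hl1, hl2]
      exact h2

theorem rz_sim (s : ℕ → Sym) (hg : IsAuto g) (hF : Fib Λ π) (hF' : Fib Λ' ρ) {m k : ℕ}
    (φ : Lg.BoundedFormula (Fin m) k) :
    ∃ N, ∀ n, N ≤ n → ∀ (v w : Fin m → ℕ) (xs ys : Fin k → ℕ),
      Sim π ρ g n (Sum.elim v xs) (Sum.elim w ys) →
      (Rz (pull s π) φ v xs ↔ Rz (pull s ρ) φ w ys) := by
  induction φ with
  | falsum => exact ⟨0, fun n _ v w xs ys _ => Iff.rfl⟩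
  | equal t₁ t₂ =>
    refine ⟨0, fun n _ v w xs ys h => ?_⟩
    obtain ⟨a, rfl⟩ := term_var t₁
    obtain ⟨b, rfl⟩ := term_var t₂
    rw [rz_equal, rz_equal]
    exact h.1 a b
  | @rel k' l r ts =>
    obtain ⟨i, hi⟩ := r
    subst hi
    have : ∃ b : Fin 2 → (Fin m ⊕ Fin k'), ts = fun i => FirstOrder.Language.Term.var (b i) := by
      choose b hb using fun i => term_var (ts i)
      exact ⟨b, funext hb⟩
    obtain ⟨b, rfl⟩ := this
    obtain ⟨N, hN⟩ := exists_small (s i)
    refine ⟨N, fun n hn v w xs ys h => ?_⟩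
    rw [rz_rel, rz_rel, pull_iff, pull_iff]
    exact h.rel_iff hg (small_mono hn hN) _ _
  | imp φ ψ ih1 ih2 =>
    obtain ⟨N1, h1⟩ := ih1
    obtain ⟨N2, h2⟩ := ih2
    refine ⟨max N1 N2, fun n hn v w xs ys h => ?_⟩
    rw [rz_imp, rz_imp, h1 n (le_trans (le_max_left _ _) hn) v w xs ys h,
      h2 n (le_trans (le_max_right _ _) hn) v w xs ys h]
  | all φ ih =>
    obtain ⟨N, h1⟩ := ih
    refine ⟨N, fun n hn v w xs ys h => ?_⟩
    rw [rz_all, rz_all]
    constructor
    · intro h2 b
      obtain ⟨a, h3, h4⟩ := h.back hg hF hF' b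
      exact (h1 n hn v w _ _ (sim_snoc h h3 h4)).1 (h2 a)
    · intro h2 a
      obtain ⟨b, h3, h4⟩ := h.forth hg hF hF' a
      exact (h1 n hn v w _ _ (sim_snoc h h3 h4)).2 (h2 b)

/-- Elementary embeddings between the coding structures are the same as maps between the labelled
trees. -/
theorem exists_elementary (s : ℕ → Sym) (hF : Fib Λ π) (hF' : Fib Λ' ρ) (hT : TLe Λ Λ') :
    Nonempty (@FirstOrder.Language.ElementaryEmbedding Lg ℕ ℕ (St (pull s π)) (St (pull s ρ))) := by
  obtain ⟨g, hg, hΛ⟩ := hT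
  obtain ⟨j, hj, hj'⟩ := exists_j hg hF hF' hΛ
  refine ⟨@FirstOrder.Language.ElementaryEmbedding.mk Lg ℕ ℕ (St (pull s π)) (St (pull s ρ)) j ?_⟩
  intro m φ x
  obtain ⟨N, hN⟩ := rz_sim s hg hF hF' (φ : Lg.BoundedFormula (Fin m) 0)
  have h1 := hN N le_rfl x (j ∘ x) default default ?_
  · have h4 : (default : Fin 0 → ℕ) = (@default (Fin 0 → ℕ) Unique.instInhabited) :=
      Subsingleton.elim _ _
    unfold Rz at h1
    change (@FirstOrder.Language.BoundedFormula.Realize Lg ℕ (St (pull s ρ)) (Fin m) 0 φ (j ∘ x) _ ↔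
      @FirstOrder.Language.BoundedFormula.Realize Lg ℕ (St (pull s π)) (Fin m) 0 φ x _)
    rw [← h4]
    exact h1.symm
  · have h2 := sim_j (g := g) hj hj' N (Sum.elim x (default : Fin 0 → ℕ))
    have h3 : j ∘ Sum.elim x (default : Fin 0 → ℕ) = Sum.elim (j ∘ x) (default : Fin 0 → ℕ) := by
      funext i
      rcases i with i | i
      · rfl
      · exact i.elim0
    rwa [h3] at h2

theorem emb_of_elementary {s : ℕ → Sym} (hs : Function.Surjective s)
    (j : @FirstOrder.Language.ElementaryEmbedding Lg ℕ ℕ (St (pull s π)) (St (pull s ρ))) :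
    Emb π ρ (@FirstOrder.Language.ElementaryEmbedding.toFun Lg ℕ ℕ (St (pull s π))
      (St (pull s ρ)) j) := by
  intro i a b
  obtain ⟨i, rfl⟩ := hs i
  have h := @FirstOrder.Language.ElementaryEmbedding.map_formula' Lg ℕ ℕ (St (pull s π))
      (St (pull s ρ)) j 2 (FirstOrder.Language.BoundedFormula.rel (L := Lg) (l := 2) ⟨i, rfl⟩
      (fun k => FirstOrder.Language.Term.var (Sum.inl k))) ![a, b]
  have h1 : (pull s ρ i (fun k => (@FirstOrder.Language.ElementaryEmbedding.toFun Lg ℕ ℕ
      (St (pull s π)) (St (pull s ρ)) j) (![a, b] k)) = true) ↔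
    (pull s π i (fun k => ![a, b] k) = true) := h
  rw [pull_iff, pull_iff] at h1
  exact h1.symm

end

/-! ## The relation of two points whose trees are mapped -/

open Pool.Agent.H579R3.Epi in
/-- the relation with witnesses `w`, where `α w` is related to `β w` -/
theorem rel_of_tree' {α β : N → N} {x y : N} (hα : Continuous α) (hβ : Continuous β)
    (htrans : ∀ u v t w w', α w = u → β w = v → α w' = v → β w' = t →
      ∃ w'', α w'' = u ∧ β w'' = t)
    (h : ∃ g : List ℤ → List ℤ, g [] = [] ∧ (∀ k p, ∃ k', g (k :: p) = k' :: g p) ∧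
      ∀ p, Lam α β x p ⊆ Lam α β y (g p)) : x = y ∨ ∃ w, α w = x ∧ β w = y := by
  obtain ⟨g, hgnil, hgcons, hL⟩ := h
  let q : ℕ → List ℤ := fun n => g (br x n)
  have hex : ∀ n, ∃ k, q (n + 1) = k :: q n := fun n => hgcons _ _
  choose k hk using hex
  have hl : ∀ n, (q n).length = n := by
    intro n
    induction n with
    | zero =>
      change (g []).length = 0
      rw [hgnil]
      rfl
    | succ n ih => rw [hk, List.length_cons, ih]
  have hmem : ∀ n, Valid α β y (q (n + 1)) ∧ x n = (ent (k n)).1 := by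
    intro n
    have h1 := hL _ (br_lam (α := α) (β := β) x n)
    change _ ∈ Lam α β y (q (n + 1)) at h1
    rw [hk, Lam_inr] at h1
    rw [hk]
    exact h1
  -- the limit chain
  set m := (ent (k 0)).2.length with hm
  let L : List (N × N) := List.ofFn fun j : Fin m =>
    ((fun i => ((ent (k i)).2.getD j (0, 0)).1), (fun i => ((ent (k i)).2.getD j (0, 0)).2))
  have hlen : ∀ n, (ent (k n)).2.length = m := by
    intro n
    obtain ⟨⟨a, l, -, h2, -⟩, -⟩ := hmem n
    have h3 := Enc.get hk hl h2 n (by omega)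
    have h4 := Enc.get hk hl h2 0 (by omega)
    rw [hm, h3, h4]
    simp [evalAt]
  have hev : ∀ n, evalAt x L n = ent (k n) := by
    intro n
    have h1 : (L.map fun q => (q.1 n, q.2 n)) = (ent (k n)).2 := by
      apply List.ext_getElem
      · simp [L, hlen]
      · intro j h2 h3
        simp [L, List.getElem?_eq_getElem h3]
    rw [evalAt, h1, (hmem n).2]
  have hgood : ∀ n, Good α β n x L ∧ ∀ i < n, last x L i = y i := by
    intro n
    rcases n with _ | n
    · obtain ⟨⟨a, l, h1, h2, -⟩, -⟩ := hmem 0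
      refine ⟨?_, fun i hi => by omega⟩
      have h3 := Enc.get hk hl h2 0 (by omega)
      have h4 := hev 0
      rw [h3] at h4
      have h5 : l.length = L.length := by
        have := congrArg (fun e => e.2.length) h4
        simp only [evalAt, List.length_map] at this
        exact this.symm
      exact (h1.mono (Nat.zero_le _)).congr h5 (fun i hi => by omega)
    · obtain ⟨⟨a, l, h1, h2, h2'⟩, -⟩ := hmem n
      have h3 := Enc.get hk hl h2
      rw [hl] at h1 h2'
      have h5 : l.length = L.length := by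
        have h4 := hev 0
        rw [h3 0 (by omega)] at h4
        have := congrArg (fun e => e.2.length) h4
        simp only [evalAt, List.length_map] at this
        exact this.symm
      have h6 : ∀ i < n + 1, evalAt a l i = evalAt x L i := by
        intro i hi
        rw [hev, h3 i hi]
      refine ⟨h1.congr h5 h6, fun i hi => ?_⟩
      rw [← last_congr (h6 i hi)]
      exact h2' i hi
  have hlast : last x L = y := by
    funext i
    exact (hgood (i + 1)).2 i (by omega)
  -- closedness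
  have hclosed : ∀ (a b w : N), (∀ n, ∃ w' : N, ∀ i < n, α w' i = a i ∧ β w' i = b i ∧ w' i = w i) →
      α w = a ∧ β w = b := by
    intro a b w h1
    choose w' hw' using h1
    have hlim : Filter.Tendsto w' Filter.atTop (nhds w) := by
      rw [tendsto_pi_nhds]
      intro i
      apply tendsto_const_nhds.congr'
      filter_upwards [Filter.eventually_gt_atTop i] with n hn
      exact ((hw' n i hn).2.2).symm
    constructor
    · funext i
      have h2 := (tendsto_pi_nhds.1 ((hα.tendsto w).comp hlim)) i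
      have h3 : Filter.Tendsto (fun n => (α ∘ w') n i) Filter.atTop (nhds (a i)) := by
        apply tendsto_const_nhds.congr'
        filter_upwards [Filter.eventually_gt_atTop i] with n hn
        exact ((hw' n i hn).1).symm
      exact tendsto_nhds_unique h2 h3
    · funext i
      have h2 := (tendsto_pi_nhds.1 ((hβ.tendsto w).comp hlim)) i
      have h3 : Filter.Tendsto (fun n => (β ∘ w') n i) Filter.atTop (nhds (b i)) := by
        apply tendsto_const_nhds.congr'
        filter_upwards [Filter.eventually_gt_atTop i] with n hn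
        exact ((hw' n i hn).2.1).symm
      exact tendsto_nhds_unique h2 h3
  have hreach : ∀ l : List (N × N), (∀ n, Good α β n x l) →
      x = last x l ∨ ∃ w, α w = x ∧ β w = last x l := by
    intro l
    induction l with
    | nil => intro _; exact Or.inl rfl
    | cons q l ih =>
      intro h1
      have h2 := ih fun n => (h1 n).2
      obtain ⟨h3, h4⟩ := hclosed (last x l) q.2 q.1 fun n => (h1 n).1
      rcases h2 with h2 | ⟨w, h5, h6⟩
      · exact Or.inr ⟨q.1, by rw [h3, ← h2], h4⟩
      · obtain ⟨w'', h7, h8⟩ := htrans _ _ _ _ _ h5 h6 h3 h4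
        exact Or.inr ⟨w'', h7, h8⟩
  have := hreach L fun n => (hgood n).1
  rwa [hlast] at this

end Pool.Agent.TH724.EE
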