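import Mathlib
import Pool.Agent.TH724.EE2

set_option autoImplicit false

open Set MeasureTheory
open Pool.Agent.H579R3.Epi (K IsAuto TLe N Lam tree_map rigid measurableSet_lam)

namespace Pool.Agent.TH724.EE

instance : MeasurableSpace D := ⊤
instance : DiscreteMeasurableSpace D := ⟨fun _ => trivial⟩

instance : Infinite D := Infinite.of_injective nd fun _ _ h => nd_inj h

lemma measurable_pull (s : ℕ → Sym) : Measurable (pull s) := by
  classical
  refine measurable_pi_lambda _ fun i => measurable_pi_lambda _ fun v => ?_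
  have h1 : Measurable (fun π : ℕ → D => (π (v 0), π (v 1))) :=
    (measurable_pi_apply _).prodMk (measurable_pi_apply _)
  exact (Measurable.of_discrete (f := fun r : D × D => decide (rel (s i) r.1 r.2))).comp h1

section

variable {X : Type} [MeasurableSpace X] (Λ : X → List ℤ → Set K)

lemma measurableSet_J (hΛ : ∀ p κ, MeasurableSet {x : X | κ ∈ Λ x p}) (d : D) :
    MeasurableSet {x : X | J (Λ x) d} := by
  rcases D_cases d with ⟨p, rfl⟩ | ⟨p, κ, c, rfl⟩
  · have : {x : X | J (Λ x) (nd p)} = ∅ := by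
      ext x
      exact ⟨fun h => absurd h (not_J_nd _ _), fun h => absurd h (notMem_empty _)⟩
    rw [this]
    exact MeasurableSet.empty
  · rcases c with _ | c
    · have : {x : X | J (Λ x) (gad p κ none)} = {x : X | κ ∈ Λ x p} := by
        ext x
        exact J_none _ _ _
      rw [this]
      exact hΛ p κ
    · have : {x : X | J (Λ x) (gad p κ (some c))} = univ := by
        ext x
        exact ⟨fun _ => trivial, fun _ => J_some _ _ _ _⟩
      rw [this]
      exact MeasurableSet.univ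

lemma measurableSet_fib (hΛ : ∀ p κ, MeasurableSet {x : X | κ ∈ Λ x p}) :
    MeasurableSet {q : (ℕ → D) × X | Fib (Λ q.2) q.1} := by
  have hn : ∀ (n : ℕ) (d : D), MeasurableSet {q : (ℕ → D) × X | q.1 n = d} := by
    intro n d
    have h1 : Measurable (fun q : (ℕ → D) × X => q.1 n) := (measurable_pi_apply n).comp measurable_fst
    exact h1 (MeasurableSet.of_discrete (s := {d}))
  have hinf : ∀ d : D, MeasurableSet {q : (ℕ → D) × X | {n | q.1 n = d}.Infinite} := by
    intro d
    have : {q : (ℕ → D) × X | {n | q.1 n = d}.Infinite} =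
        ⋂ m : ℕ, ⋃ n : ℕ, ⋃ _ : m ≤ n, {q : (ℕ → D) × X | q.1 n = d} := by
      ext q
      simp only [mem_iInter, mem_iUnion]
      change {n | q.1 n = d}.Infinite ↔ _
      rw [← Nat.frequently_atTop_iff_infinite, Filter.frequently_atTop]
      constructor
      · intro h m
        obtain ⟨n, h1, h2⟩ := h m
        exact ⟨n, h1, h2⟩
      · intro h m
        obtain ⟨n, h1, h2⟩ := h m
        exact ⟨n, h1, h2⟩
    rw [this]
    exact MeasurableSet.iInter fun m => MeasurableSet.iUnion fun n => MeasurableSet.iUnion fun _ =>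
      hn n d
  have hun : ∀ d : D, MeasurableSet {q : (ℕ → D) × X | ∃! n, q.1 n = d} := by
    intro d
    have : {q : (ℕ → D) × X | ∃! n, q.1 n = d} =
        ⋃ n : ℕ, ({q : (ℕ → D) × X | q.1 n = d} ∩
          ⋂ m : ℕ, ⋂ _ : m ≠ n, {q : (ℕ → D) × X | q.1 m = d}ᶜ) := by
      ext q
      simp only [mem_iUnion, mem_inter_iff, mem_iInter, mem_compl_iff]
      constructor
      · rintro ⟨n, h1, h2⟩
        exact ⟨n, h1, fun m hm h3 => hm (h2 m h3)⟩
      · rintro ⟨n, h1, h2⟩
        refine ⟨n, h1, fun m hm => ?_⟩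
        by_contra h3
        exact h2 m h3 hm
    rw [this]
    exact MeasurableSet.iUnion fun n => (hn n d).inter
      (MeasurableSet.iInter fun m => MeasurableSet.iInter fun _ => (hn m d).compl)
  have hno : ∀ d : D, MeasurableSet {q : (ℕ → D) × X | ∀ n, q.1 n ≠ d} := by
    intro d
    have : {q : (ℕ → D) × X | ∀ n, q.1 n ≠ d} =
        ⋂ n : ℕ, {q : (ℕ → D) × X | q.1 n = d}ᶜ := by
      ext q
      simp only [mem_iInter, mem_compl_iff]
      exact Iff.rfl
    rw [this]
    exact MeasurableSet.iInter fun n => (hn n d).compl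
  have hJ : ∀ d, MeasurableSet {q : (ℕ → D) × X | J (Λ q.2) d} := fun d =>
    measurable_snd (measurableSet_J Λ hΛ d)
  have : {q : (ℕ → D) × X | Fib (Λ q.2) q.1} = ⋂ d : D,
      (({q : (ℕ → D) × X | J (Λ q.2) d}ᶜ ∪ {q : (ℕ → D) × X | {n | q.1 n = d}.Infinite}) ∩
        (({_q : (ℕ → D) × X | isNd d}ᶜ ∪ {q : (ℕ → D) × X | ∃! n, q.1 n = d}) ∩
        ({q : (ℕ → D) × X | J (Λ q.2) d} ∪ ({_q : (ℕ → D) × X | isNd d} ∪
          {q : (ℕ → D) × X | ∀ n, q.1 n ≠ d})))) := by
    ext q
    simp only [mem_iInter, mem_inter_iff, mem_union, mem_compl_iff]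
    change (∀ d, (J (Λ q.2) d → {n | q.1 n = d}.Infinite) ∧ (isNd d → ∃! n, q.1 n = d) ∧
      (¬ J (Λ q.2) d → ¬ isNd d → ∀ n, q.1 n ≠ d)) ↔
      ∀ d, (¬ J (Λ q.2) d ∨ {n | q.1 n = d}.Infinite) ∧ ((¬ isNd d ∨ ∃! n, q.1 n = d) ∧
        (J (Λ q.2) d ∨ (isNd d ∨ ∀ n, q.1 n ≠ d)))
    refine forall_congr' fun d => ?_
    generalize ({n | q.1 n = d}.Infinite) = P1
    generalize (∃! n, q.1 n = d) = P2
    generalize (∀ n, q.1 n ≠ d) = P3
    tauto
  rw [this]
  exact MeasurableSet.iInter fun d => ((hJ d).compl.union (hinf d)).inter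
    (((MeasurableSet.const _).compl.union (hun d)).inter
      ((hJ d).union ((MeasurableSet.const _).union (hno d))))

/-- a point with infinite fibre -/
def g0 : D := gad [] (Sum.inl 0) (some 0)

lemma J_g0 (L : List ℤ → Set K) : J L g0 := J_some _ _ _ _

lemma not_isNd_of_J {L : List ℤ → Set K} {d : D} (h : J L d) : ¬ isNd d := by
  rintro ⟨p, rfl⟩
  exact not_J_nd _ _ h

open Classical in
/-- a map of `ℕ` to `D` with the prescribed fibres -/
noncomputable def rho (e : ℕ ≃ D × ℕ) (L : List ℤ → Set K) (n : ℕ) : D :=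
  if ((e n).2 = 0 ∧ isNd (e n).1) ∨ J L (e n).1 then (e n).1 else g0

lemma fib_rho (e : ℕ ≃ D × ℕ) (L : List ℤ → Set K) : Fib L (rho e L) := by
  classical
  intro d
  refine ⟨?_, ?_, ?_⟩
  · intro hd
    have h1 : range (fun i : ℕ => e.symm (d, i)) ⊆ {n | rho e L n = d} := by
      rintro n ⟨i, rfl⟩
      change rho e L (e.symm (d, i)) = d
      simp [rho, hd]
    refine Infinite.mono h1 (infinite_range_of_injective ?_)
    intro i j hij
    simpa using hij
  · intro hd
    have hJ : ¬ J L d := fun h => not_isNd_of_J h hd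
    have hg : d ≠ g0 := fun h => hJ (h ▸ J_g0 L)
    refine ⟨e.symm (d, 0), ?_, ?_⟩
    · simp [rho, hd]
    · intro n hn
      simp only [rho] at hn
      split_ifs at hn with h1
      · rcases h1 with h1 | h1
        · rw [Equiv.eq_symm_apply]
          exact Prod.ext hn h1.1
        · rw [hn] at h1
          exact absurd h1 hJ
      · exact absurd hn.symm hg
  · intro hJ hN n hn
    simp only [rho] at hn
    split_ifs at hn with h1
    · rcases h1 with h1 | h1
      · rw [hn] at h1
        exact hN h1.2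
      · rw [hn] at h1
        exact hJ h1
    · rw [← hn] at hJ
      exact hJ (J_g0 L)

lemma measurable_rho (hΛ : ∀ p κ, MeasurableSet {x : X | κ ∈ Λ x p}) (e : ℕ ≃ D × ℕ) :
    Measurable (fun x : X => rho e (Λ x)) := by
  classical
  refine measurable_pi_lambda _ fun n => ?_
  have : MeasurableSet {x : X | ((e n).2 = 0 ∧ isNd (e n).1) ∨ J (Λ x) (e n).1} :=
    (MeasurableSet.const _).union (measurableSet_J Λ hΛ _)
  exact Measurable.ite this measurable_const measurable_const

end

lemma Fib.perm {L : List ℤ → Set K} {π : ℕ → D} (h : Fib L π) (σ : Equiv.Perm ℕ) :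
    Fib L (π ∘ σ) := by
  intro d
  refine ⟨?_, ?_, ?_⟩
  · intro hd
    have h1 : {n | (π ∘ σ) n = d} = σ ⁻¹' {n | π n = d} := rfl
    rw [h1]
    exact ((h d).1 hd).preimage (by rw [σ.surjective.range_eq]; exact subset_univ _)
  · intro hd
    obtain ⟨n, hn, hu⟩ := (h d).2.1 hd
    refine ⟨σ.symm n, by simpa using hn, fun m hm => ?_⟩
    rw [Equiv.eq_symm_apply]
    exact hu _ hm
  · intro hd hd' n
    exact (h d).2.2 hd hd' (σ n)

lemma pull_comp (s : ℕ → Sym) (π : ℕ → D) (σ : Equiv.Perm ℕ) :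
    (fun i (v : Fin 2 → ℕ) => pull s π i (σ ∘ v)) = pull s (π ∘ σ) := rfl

/-- The main theorem: every analytic quasi-order on a nonempty Polish space is Borel equivalent to
elementary embeddability on an invariant Borel class of countable structures. -/
theorem main (X : Type) [Nonempty X] [TopologicalSpace X] [PolishSpace X] [MeasurableSpace X]
    [BorelSpace X] (R : X → X → Prop) (hrefl : ∀ x, R x x)
    (htrans : ∀ x y z, R x y → R y z → R x z) (hR : AnalyticSet {p : X × X | R p.1 p.2}) :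
    ∃ B : Set Str, MeasurableSet B ∧
      (∀ (σ : Equiv.Perm ℕ) (u : Str), u ∈ B ↔ (fun i v => u i (σ ∘ v)) ∈ B) ∧
      (∃ f : X → Str, Measurable f ∧ (∀ x, f x ∈ B) ∧
        ∀ x y, R x y ↔ Nonempty (@FirstOrder.Language.ElementaryEmbedding Lg ℕ ℕ
          (St (f x)) (St (f y)))) ∧
      (∃ g : B → X, Measurable g ∧
        ∀ u v : B, Nonempty (@FirstOrder.Language.ElementaryEmbedding Lg ℕ ℕ
          (St u.1) (St v.1)) ↔ R (g u) (g v)) := by
  classical
  obtain ⟨x₀⟩ := ‹Nonempty X›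
  -- a Borel embedding of `X` into Baire space
  obtain ⟨c₀, hc₀m, hc₀i⟩ :=
    MeasurableSpace.measurable_injection_nat_bool_of_countablySeparated X
  let c : X → N := fun x n => (c₀ x n).toNat
  have hcm : Measurable c := by
    refine measurable_pi_lambda _ fun n => ?_
    exact (Measurable.of_discrete (f := Bool.toNat)).comp ((measurable_pi_apply n).comp hc₀m)
  have hci : Function.Injective c := by
    intro x y hxy
    apply hc₀i
    funext n
    have h := congrFun hxy n
    simp only [c] at h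
    cases h1 : c₀ x n <;> cases h2 : c₀ y n <;> simp_all
  -- the relation as a continuous image
  rw [AnalyticSet] at hR
  obtain ⟨ψ, hψ, hψr⟩ : ∃ ψ : (ℕ → ℕ) → X × X, Continuous ψ ∧ range ψ = {p : X × X | R p.1 p.2} := by
    rcases hR with hR | hR
    · have h0 : (x₀, x₀) ∈ {p : X × X | R p.1 p.2} := hrefl x₀
      rw [hR] at h0
      exact absurd h0 (notMem_empty _)
    · exact hR
  have hS : AnalyticSet (range fun w : ℕ → ℕ => (c (ψ w).1, c (ψ w).2)) := by
    have h1 : Measurable (fun w : ℕ → ℕ => (c (ψ w).1, c (ψ w).2)) :=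
      (hcm.comp (measurable_fst.comp hψ.measurable)).prodMk
        (hcm.comp (measurable_snd.comp hψ.measurable))
    have h2 := (MeasurableSet.univ (α := ℕ → ℕ)).analyticSet_image h1
    rwa [image_univ] at h2
  rw [AnalyticSet] at hS
  obtain ⟨θ, hθ, hθr⟩ : ∃ θ : N → N × N, Continuous θ ∧
      range θ = range fun w : ℕ → ℕ => (c (ψ w).1, c (ψ w).2) := by
    rcases hS with hS | hS
    · have : (c (ψ 0).1, c (ψ 0).2) ∈ (∅ : Set (N × N)) := by
        rw [← hS]
        exact ⟨0, rfl⟩
      exact absurd this (notMem_empty _)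
    · exact hS
  let α : N → N := fun w => (θ w).1
  let β : N → N := fun w => (θ w).2
  have hα : Continuous α := continuous_fst.comp hθ
  have hβ : Continuous β := continuous_snd.comp hθ
  have h1 : ∀ w, ∃ x y, R x y ∧ α w = c x ∧ β w = c y := by
    intro w
    have : θ w ∈ range fun w : ℕ → ℕ => (c (ψ w).1, c (ψ w).2) := by
      rw [← hθr]
      exact ⟨w, rfl⟩
    obtain ⟨w', hw'⟩ := this
    refine ⟨(ψ w').1, (ψ w').2, ?_, ?_, ?_⟩
    · have h0 : ψ w' ∈ {p : X × X | R p.1 p.2} := by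
        rw [← hψr]
        exact ⟨w', rfl⟩
      exact h0
    · exact (congrArg Prod.fst hw').symm
    · exact (congrArg Prod.snd hw').symm
  have h2 : ∀ x y, R x y → ∃ w, α w = c x ∧ β w = c y := by
    intro x y hxy
    have hxy' : (x, y) ∈ {p : X × X | R p.1 p.2} := hxy
    rw [← hψr] at hxy'
    obtain ⟨w', hw'⟩ := hxy'
    have : (c x, c y) ∈ range θ := by
      rw [hθr]
      exact ⟨w', by simp only [hw']⟩
    obtain ⟨w, hw⟩ := this
    exact ⟨w, congrArg Prod.fst hw, congrArg Prod.snd hw⟩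
  have htr : ∀ u v t w w', α w = u → β w = v → α w' = v → β w' = t →
      ∃ w'', α w'' = u ∧ β w'' = t := by
    intro u v t w w' e1 e2 e3 e4
    obtain ⟨x, y, hxy, e5, e6⟩ := h1 w
    obtain ⟨y', z, hyz, e7, e8⟩ := h1 w'
    have : y = y' := hci (by rw [← e6, ← e7, e2, e3])
    subst this
    obtain ⟨w'', e9, e10⟩ := h2 x z (htrans x y z hxy hyz)
    exact ⟨w'', by rw [e9, ← e5, e1], by rw [e10, ← e8, e4]⟩
  let Λ : X → List ℤ → Set K := fun x => Lam α β (c x)
  have key1 : ∀ x y, R x y → TLe (Λ x) (Λ y) := by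
    intro x y h
    obtain ⟨w, e1, e2⟩ := h2 x y h
    exact tree_map e1 e2
  have key2 : ∀ x y, (∃ g : List ℤ → List ℤ, g [] = [] ∧
      (∀ k p, ∃ k', g (k :: p) = k' :: g p) ∧ ∀ p, Λ x p ⊆ Λ y (g p)) → R x y := by
    intro x y h
    rcases rel_of_tree' hα hβ htr h with h3 | ⟨w, e1, e2⟩
    · rw [hci h3]
      exact hrefl _
    · obtain ⟨x', y', hxy, e3, e4⟩ := h1 w
      have e5 : x = x' := hci (by rw [← e1, e3])
      have e6 : y = y' := hci (by rw [← e2, e4])
      rw [e5, e6]
      exact hxy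
  have hΛ : ∀ p κ, MeasurableSet {x : X | κ ∈ Λ x p} := fun p κ =>
    hcm (measurableSet_lam (α := α) (β := β) p κ)
  obtain ⟨s, hs⟩ := exists_surjective_nat Sym
  have key : ∀ x y (π π' : ℕ → D), Fib (Λ x) π → Fib (Λ y) π' →
      (Nonempty (@FirstOrder.Language.ElementaryEmbedding Lg ℕ ℕ
          (St (pull s π)) (St (pull s π'))) ↔ R x y) := by
    intro x y π π' hF hF'
    constructor
    · rintro ⟨j⟩
      exact key2 x y (map_of_emb hF hF' (emb_of_elementary hs j))
    · intro h
      exact exists_elementary s hF hF' (key1 x y h)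
  -- the class of structures
  let A : Set ((ℕ → D) × X) := {q | Fib (Λ q.2) q.1}
  have hA : MeasurableSet A := measurableSet_fib Λ hΛ
  let Φ : (ℕ → D) × X → Str := fun q => pull s q.1
  have hΦ : Measurable Φ := (measurable_pull s).comp measurable_fst
  have hinj : InjOn Φ A := by
    rintro ⟨π, x⟩ hq ⟨π', x'⟩ hq' h
    have hE : Emb π π' id := by
      intro i a b
      obtain ⟨i, rfl⟩ := hs i
      have h3 := congrFun (congrFun h i) ![a, b]
      have h4 : (pull s π i ![a, b] = true) ↔ (pull s π' i ![a, b] = true) := by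
        change pull s π i ![a, b] = pull s π' i ![a, b] at h3
        rw [h3]
      rw [pull_iff, pull_iff] at h4
      exact h4
    obtain ⟨g, hg, hgπ, hgΛ⟩ := iso_of_eq (show Fib (Λ x) π from hq) (show Fib (Λ x') π' from hq') hE
    obtain ⟨hid, hxx⟩ := rigid hg hgΛ
    have : ∀ d, mapD g d = d := by
      intro d
      rcases D_cases d with ⟨p, rfl⟩ | ⟨p, κ, c, rfl⟩
      · rw [mapD_nd, hid]
      · rw [mapD_gad, hid]
    refine Prod.ext ?_ (hci hxx)
    funext n
    change π n = π' n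
    rw [hgπ, this]
  have hAs : StandardBorelSpace A := hA.standardBorel
  let Ψ : A → Str := fun q => Φ q.1
  have hΨ : MeasurableEmbedding Ψ := by
    apply Measurable.measurableEmbedding (hΦ.comp measurable_subtype_coe)
    intro q q' h
    exact Subtype.ext (hinj q.2 q'.2 h)
  obtain ⟨G, hG, hGΨ⟩ := hΨ.exists_measurable_extend
    (g := fun q : A => q.1.2) (measurable_snd.comp measurable_subtype_coe) (fun _ => ⟨x₀⟩)
  have hGpull : ∀ π x, Fib (Λ x) π → G (pull s π) = x := by
    intro π x h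
    exact congrFun hGΨ ⟨(π, x), h⟩
  obtain ⟨e⟩ : Nonempty (ℕ ≃ D × ℕ) := by
    have := Classical.choice (nonempty_denumerable (D × ℕ))
    exact ⟨(Denumerable.eqv (D × ℕ)).symm⟩
  have hinv : ∀ (σ : Equiv.Perm ℕ) (u : Str), u ∈ Φ '' A → (fun i v => u i (σ ∘ v)) ∈ Φ '' A := by
    rintro σ _ ⟨⟨π, x⟩, hq, rfl⟩
    exact ⟨(π ∘ σ, x), Fib.perm (show Fib (Λ x) π from hq) σ, (pull_comp s π σ).symm⟩
  refine ⟨Φ '' A, hA.image_of_measurable_injOn hΦ hinj, ?_, ?_, ?_⟩
  · intro σ u
    refine ⟨hinv σ u, fun h => ?_⟩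
    have h3 := hinv σ⁻¹ _ h
    have h4 : (fun i (v : Fin 2 → ℕ) => u i (σ ∘ (⇑σ⁻¹ ∘ v))) = u := by
      funext i v
      congr 1
      funext k
      simp
    exact h4 ▸ h3
  · refine ⟨fun x => pull s (rho e (Λ x)), (measurable_pull s).comp (measurable_rho Λ hΛ e), ?_, ?_⟩
    · intro x
      exact ⟨(rho e (Λ x), x), fib_rho e _, rfl⟩
    · intro x y
      exact (key x y _ _ (fib_rho e (Λ x)) (fib_rho e (Λ y))).symm
  · refine ⟨fun u => G u.1, hG.comp measurable_subtype_coe, ?_⟩
    rintro ⟨_, ⟨⟨π, x⟩, hq, rfl⟩⟩ ⟨_, ⟨⟨π', y⟩, hq', rfl⟩⟩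
    change Nonempty (@FirstOrder.Language.ElementaryEmbedding Lg ℕ ℕ
          (St (pull s π)) (St (pull s π'))) ↔ R (G (pull s π)) (G (pull s π'))
    rw [key x y π π' hq hq', hGpull π x hq, hGpull π' y hq']

end Pool.Agent.TH724.EE
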